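import Pool.Agent.H90.RG.Targets

/-! Part F of the regularity theorem (MP_2697e3_an), row CNF: Fubini in the coordinates `(t, y)`. -/

set_option autoImplicit false

namespace Pool.Agent.H63.RG

open MeasureTheory Metric Set Filter Topology Pool.Agent.H87.SN Pool.Agent.H90.RG
open scoped ContDiff RealInnerProductSpace ENNReal

private theorem fub {n : ℕ} {B : Type*} [NormedAddCommGroup B] [NormedSpace ℝ B]
    (hmp : MeasurePreserving (fun p : ℝ × E n => cn p.1 p.2) (volume.prod volume) volume)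
    (hem : MeasurableEmbedding (fun p : ℝ × E n => cn p.1 p.2))
    (f : E (n + 1) → B) (hf : Integrable f) :
    Integrable (fun y : E n => ∫ t, f (cn t y)) ∧ Integrable (fun t : ℝ => ∫ y : E n, f (cn t y)) ∧
      ∫ x, f x = ∫ y : E n, ∫ t, f (cn t y) ∧ ∫ x, f x = ∫ t, ∫ y : E n, f (cn t y) := by
  have h1 : Integrable (fun p : ℝ × E n => f (cn p.1 p.2)) (volume.prod volume) :=
    (hmp.integrable_comp_emb hem).2 hf
  have h2 : ∫ p : ℝ × E n, f (cn p.1 p.2) ∂(volume.prod volume) = ∫ x, f x :=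
    hmp.integral_comp hem f
  refine ⟨h1.integral_prod_right, h1.integral_prod_left, ?_, ?_⟩
  · rw [← h2]
    exact integral_prod_symm _ h1
  · rw [← h2]
    exact integral_prod _ h1

theorem pf_CNF (_hA : T_CNA) (hM : T_CNM) : T_CNF := by
  intro n m
  obtain ⟨hmp, hem⟩ := hM n
  refine ⟨fun f hf => fub hmp hem f hf, fun f hf => fub hmp hem f hf, fun f hf => ?_⟩
  have h1 : ∫⁻ p : ℝ × E n, f (cn p.1 p.2) ∂(volume.prod volume) = ∫⁻ x, f x :=
    hmp.lintegral_comp hf
  have h2 : Measurable (fun p : ℝ × E n => f (cn p.1 p.2)) := hf.comp hmp.measurable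
  rw [← h1]
  exact lintegral_prod_symm _ h2.aemeasurable

end Pool.Agent.H63.RG
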